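import Pool.Agent.Lib.MP_6b2d39_agU2.FinalM

/-!
Linear systems of plane curves with arbitrary multiplicities at general points.

`curves d m P` is the space of homogeneous polynomials of degree `d` in three variables with
multiplicity at least `m i` at the base point `P i` (a vector of `ℂ ^ 3`), `vd d m` its virtual
dimension `(d + 2).choose 2 - ∑ (m i + 1).choose 2`.
-/

namespace Pool.Agent.Results.MP_6b2d39_ag.AllMultiplicities

open Pool.Agent.Lib.MP_6b2d39_agCr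

/-- There is an absolute constant `C` with the following property. Take any number `n` of general
points with arbitrary multiplicities `μ i ≤ M`.
(1) For every degree `d`, with
`W = C (M ^ (9 / 8) + M ^ 6 / (d + 1) ^ 4) (log ((d + 1) / M + 2)) ^ 3`, the dimension of the system
is at least `max v 0` and at most `max v 0 + W`, and it is `max v 0` if `|v| ≥ W`, where `v` is the
virtual dimension.
(2) Let `S = ∑ μ i ^ 2`, let `S_m` be the part of this sum with `μ i ≤ m`, and let `1 ≤ A ≤ M` and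
`B ≥ 1` be such that `C m ^ 2 B S ≤ S_m ^ 2` for all `m` with `A ≤ m ≤ M`. If
`C A ^ 4 (log (A + 2)) ^ 3 ≤ B S ^ (3 / 2)`, then the dimension is `max v 0` for all degrees `d`
except at most one. If `A ≤ B`, then it is `max v 0` for all degrees `d`. -/
theorem result : ∃ C : ℝ, ∀ (n M : ℕ) (μ : Fin n → ℕ), 1 ≤ M → (∀ i, μ i ≤ M) →
    (∀ (d : ℕ) (W : ℝ),
      W = C * ((M : ℝ) ^ (9 / 8 : ℝ) + (M : ℝ) ^ 6 / ((d : ℝ) + 1) ^ 4) *
        Real.log (((d : ℝ) + 1) / M + 2) ^ 3 →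
      General (fun P => max (vd d μ) 0 ≤ (Module.finrank ℂ (curves d μ P) : ℤ) ∧
        (Module.finrank ℂ (curves d μ P) : ℝ) ≤ max ((vd d μ : ℤ) : ℝ) 0 + W ∧
        (W ≤ |((vd d μ : ℤ) : ℝ)| →
          (Module.finrank ℂ (curves d μ P) : ℤ) = max (vd d μ) 0))) ∧
    (∀ (A : ℕ) (B : ℝ), 1 ≤ A → A ≤ M → 1 ≤ B →
      (∀ m : ℕ, A ≤ m → m ≤ M → C * (m : ℝ) ^ 2 * B * ((∑ i, μ i ^ 2 : ℕ) : ℝ) ≤
        ((∑ i ∈ Finset.univ.filter (fun i => μ i ≤ m), μ i ^ 2 : ℕ) : ℝ) ^ 2) →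
      (C * (A : ℝ) ^ 4 * Real.log (A + 2) ^ 3 ≤
          B * ((∑ i, μ i ^ 2 : ℕ) : ℝ) ^ (3 / 2 : ℝ) →
        ∃ d0 : ℕ, ∀ d : ℕ, d ≠ d0 →
          General (fun P => (Module.finrank ℂ (curves d μ P) : ℤ) = max (vd d μ) 0)) ∧
      ((A : ℝ) ≤ B → ∀ d : ℕ,
        General (fun P => (Module.finrank ℂ (curves d μ P) : ℤ) = max (vd d μ) 0))) :=
  Pool.Agent.Lib.MP_6b2d39_agU2.all_final

end Pool.Agent.Results.MP_6b2d39_ag.AllMultiplicities
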