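import Pool.Agent.Lib.MP_6b2d39_agUx.AllX
import Pool.Agent.Lib.MP_6b2d39_agUq.BoxQ

/-!
MP_6b2d39_ag, Q1 (Harbourne - Hirschowitz). Almost all linear systems are nonspecial in every
degree, both when they are ordered by the number `N` of their conditions and in the boxes
`{1, .., M} ^ n`.
-/

set_option autoImplicit false

namespace Pool.Agent.Results.MP_6b2d39_ag.AlmostAllSystems

open Pool.Agent.Lib.MP_6b2d39_agCr

/-- Call `L_d(μ)` special if for general points the dimension of the space of curves of degree `d`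
with multiplicities `μ` is not `max (vd d μ) 0`. There is a constant `C` such that
(1) for every `N ≥ 1`, among the multisets of positive integers with `∑ m (m + 1) / 2 = N`, the
proportion of those which are special in some degree is at most `C exp (- N ^ (1 / 6))`;
(2) for all `n, M ≥ 1`, the set of the pairs `(μ, d)` with `μ ∈ {1, .., M} ^ n` and `L_d(μ)` special
is finite and has at most
`C (M ^ (1 / 8) / √n + M / n ^ (5 / 2)) (log (n + 2)) ^ 3 M ^ n` elements. -/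
theorem result : ∃ C : ℝ,
    (∀ N : ℕ, 1 ≤ N →
      (({s : Multiset ℕ | 0 ∉ s ∧ (s.map fun m => (m + 1).choose 2).sum = N ∧
        ∃ (n d : ℕ) (μ : Fin n → ℕ), Finset.univ.val.map μ = s ∧
          ¬ General (fun P =>
            (Module.finrank ℂ (curves d μ P) : ℤ) = max (vd d μ) 0)}.ncard : ℕ) : ℝ) ≤
        C * Real.exp (-((N : ℝ) ^ (1 / 6 : ℝ))) *
          ({s : Multiset ℕ | 0 ∉ s ∧ (s.map fun m => (m + 1).choose 2).sum = N}.ncard : ℕ)) ∧
    (∀ n M : ℕ, 1 ≤ n → 1 ≤ M →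
      {q : (Fin n → ℕ) × ℕ | (∀ i, 1 ≤ q.1 i ∧ q.1 i ≤ M) ∧
        ¬ General (fun P =>
          (Module.finrank ℂ (curves q.2 q.1 P) : ℤ) = max (vd q.2 q.1) 0)}.Finite ∧
      (({q : (Fin n → ℕ) × ℕ | (∀ i, 1 ≤ q.1 i ∧ q.1 i ≤ M) ∧
        ¬ General (fun P =>
          (Module.finrank ℂ (curves q.2 q.1 P) : ℤ) = max (vd q.2 q.1) 0)}.ncard : ℕ) : ℝ) ≤
        C * ((M : ℝ) ^ (1 / 8 : ℝ) / √(n : ℝ) + M / (n : ℝ) ^ (5 / 2 : ℝ)) *
          Real.log ((n : ℝ) + 2) ^ 3 * (M : ℝ) ^ n) := by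
  obtain ⟨C1, h1⟩ := Pool.Agent.Lib.MP_6b2d39_agUx.almost_all_x
  obtain ⟨C2, -, h2⟩ := Pool.Agent.Lib.MP_6b2d39_agUq.box_q
  refine ⟨max C1 C2, fun N hN => (h1 N hN).trans ?_, fun n M hn hM => ⟨(h2 n M hn hM).1,
    (h2 n M hn hM).2.trans ?_⟩⟩
  · gcongr
    exact le_max_left _ _
  · have h3 : 0 ≤ Real.log ((n : ℝ) + 2) := Real.log_nonneg (by
      have : (0 : ℝ) ≤ n := by positivity
      linarith)
    gcongr
    exact le_max_right _ _

end Pool.Agent.Results.MP_6b2d39_ag.AlmostAllSystems
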