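import Pool.Agent.Lib.MP_6b2d39_agHl.Degree
import Pool.Agent.Lib.MP_6b2d39_agHz.DimZ
import Pool.Agent.Lib.MP_6b2d39_agHz.DensZ
import Pool.Agent.Lib.MP_6b2d39_agHh.Main

/-!
Linear systems of plane curves with almost equal multiplicities at general points.

`curves d m P` is the space of homogeneous polynomials of degree `d` in three variables with
multiplicity at least `m i` at the base point `P i` (a vector of `ℂ ^ 3`), `vd d m` its virtual
dimension `(d + 2).choose 2 - ∑ (m i + 1).choose 2`.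
-/

namespace Pool.Agent.Results.MP_6b2d39_ag.HomogeneousWindow

open Pool.Agent.Lib.MP_6b2d39_agCr

/-- (1) For all large `n`, all `z ≤ n` at least an absolute constant, all degrees `d` and all
multiplicities equal to `m` or `m + 1` at `n` general points, the system has the expected dimension
if its virtual dimension `v` satisfies `|v| ≥ √z d + exp (-z ^ (1 / 20)) d ^ 2`.
(2) In particular, for all large `n` and all `m` with `n (m + 1) ≤ exp (n ^ (1 / 20))`, the system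
of curves of degree `d` with multiplicity `m` at `n` general points has the expected dimension for
all degrees `d` with `|d - √(n m (m + 1))| ≥ 4 (log (n (m + 1))) ^ 10`.
(3) For all large `n`, all `m ≤ exp (n ^ (1 / 250))` and all multiplicities equal to `m` or `m + 1`,
the system has the expected dimension for all degrees `d` except one degree `d0`, and also for `d0`
if `|v| ≥ (m + 1) (log (n (m + 1))) ^ 61`.
(4) For all large `n`, all `m ≤ exp (n ^ (1 / 250))` and all multiplicities equal to `m` or `m + 1`,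
the dimension of the system is, for every degree `d`, at least `max v 0` and at most
`max v 0 + 2 (m + 1) (log (n (m + 1))) ^ 61`.
(5) For all large `n` and all multiplicities equal to `m` or `m + 1` with `40 m ≤ n`, the system has
the expected dimension for all degrees `d`.
(6) For all large `n`, not a square, and all `M ≤ exp (n ^ (1 / 250))`: for all `m < M` with at most
`(log (n M)) ^ 62 / √n * M` exceptions the systems of curves with multiplicity `m` at `n` general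
points have the expected dimension for all degrees `d`.
(7) For all large `ν`: let the points be divided into classes `j`, the class `j` consisting of
`n j ≥ ν` points of multiplicity `m j ≥ 1` or `m j + 1` with `n j (m j + 1) ≤ exp (ν ^ (1 / 250))`
and `n j (m j + 1) ^ 2 ≥ ν ^ (-1 / 200) ∑ i, (μ i + 1) ^ 2`. Then the system has the expected
dimension for all degrees `d` except one degree `d0`, and also for `d0` if
`|v| ≥ ν ^ (-1 / 25) d0`.
(8) For the systems in (7) the dimension is, for every degree `d`, at least `max v 0` and at most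
`max v 0 + 3 ν ^ (-1 / 25) d`. -/
theorem result :
    (∃ N0 : ℕ, ∀ (n : ℕ) (z : ℝ), (N0 : ℝ) ≤ z → z ≤ n →
      ∀ (d m : ℕ) (μ : Fin n → ℕ), (∀ i, μ i = m ∨ μ i = m + 1) →
      √z * d + Real.exp (-(z ^ (1 / 20 : ℝ))) * (d : ℝ) ^ 2 ≤ |((vd d μ : ℤ) : ℝ)| →
      General (fun P => (Module.finrank ℂ (curves d μ P) : ℤ) = max (vd d μ) 0)) ∧
    (∃ N0 : ℕ, ∀ n m : ℕ, N0 ≤ n → (n : ℝ) * (m + 1) ≤ Real.exp ((n : ℝ) ^ (1 / 20 : ℝ)) →
      ∀ d : ℕ, 4 * Real.log (n * (m + 1)) ^ 10 ≤ |(d : ℝ) - √(n * m * (m + 1))| →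
      General (fun P => (Module.finrank ℂ (curves d (fun _ : Fin n => m) P) : ℤ) =
        max (vd d (fun _ : Fin n => m)) 0)) ∧
    (∃ N0 : ℕ, ∀ n m : ℕ, N0 ≤ n → (m : ℝ) ≤ Real.exp ((n : ℝ) ^ (1 / 250 : ℝ)) →
      ∀ μ : Fin n → ℕ, (∀ i, μ i = m ∨ μ i = m + 1) → ∃ d0 : ℕ, ∀ d : ℕ,
      d ≠ d0 ∨ (m + 1) * Real.log (n * (m + 1)) ^ 61 ≤ |((vd d μ : ℤ) : ℝ)| →
      General (fun P => (Module.finrank ℂ (curves d μ P) : ℤ) = max (vd d μ) 0)) ∧
    (∃ N0 : ℕ, ∀ n m : ℕ, N0 ≤ n → (m : ℝ) ≤ Real.exp ((n : ℝ) ^ (1 / 250 : ℝ)) →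
      ∀ μ : Fin n → ℕ, (∀ i, μ i = m ∨ μ i = m + 1) → ∀ d : ℕ,
      General (fun P => max (vd d μ) 0 ≤ (Module.finrank ℂ (curves d μ P) : ℤ) ∧
        (Module.finrank ℂ (curves d μ P) : ℝ) ≤
          max ((vd d μ : ℤ) : ℝ) 0 + 2 * (m + 1) * Real.log (n * (m + 1)) ^ 61)) ∧
    (∃ N0 : ℕ, ∀ n m : ℕ, N0 ≤ n → 40 * m ≤ n → ∀ μ : Fin n → ℕ,
      (∀ i, μ i = m ∨ μ i = m + 1) → ∀ d : ℕ,
      General (fun P => (Module.finrank ℂ (curves d μ P) : ℤ) = max (vd d μ) 0)) ∧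
    (∃ N0 : ℕ, ∀ n M : ℕ, N0 ≤ n → ¬ IsSquare n →
      (M : ℝ) ≤ Real.exp ((n : ℝ) ^ (1 / 250 : ℝ)) →
      (({m : ℕ | m < M ∧ ∃ d : ℕ, ¬ General (fun P =>
        (Module.finrank ℂ (curves d (fun _ : Fin n => m) P) : ℤ) =
          max (vd d (fun _ : Fin n => m)) 0)}.ncard : ℕ) : ℝ) ≤
        Real.log (n * M) ^ 62 / √(n : ℝ) * M) ∧
    (∃ N0 : ℕ, ∀ ν : ℕ, N0 ≤ ν → ∀ (h g : ℕ) (k : Fin h → Fin g)
      (m : Fin g → ℕ) (μ : Fin h → ℕ), (∀ i, μ i = m (k i) ∨ μ i = m (k i) + 1) →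
      (∀ j, 1 ≤ m j ∧ ν ≤ (Finset.univ.filter fun i => k i = j).card ∧
        ((Finset.univ.filter fun i => k i = j).card : ℝ) * (m j + 1) ≤
          Real.exp ((ν : ℝ) ^ (1 / 250 : ℝ)) ∧
        (ν : ℝ) ^ (-(1 / 200) : ℝ) * ((∑ i, (μ i + 1) ^ 2 : ℕ) : ℝ) ≤
          ((Finset.univ.filter fun i => k i = j).card : ℝ) * ((m j : ℝ) + 1) ^ 2) →
      ∃ d0 : ℕ, ∀ d : ℕ, d ≠ d0 ∨ (ν : ℝ) ^ (-(1 / 25) : ℝ) * d ≤ |((vd d μ : ℤ) : ℝ)| →
        General (fun P => (Module.finrank ℂ (curves d μ P) : ℤ) = max (vd d μ) 0)) ∧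
    (∃ N0 : ℕ, ∀ ν : ℕ, N0 ≤ ν → ∀ (h g : ℕ) (k : Fin h → Fin g)
      (m : Fin g → ℕ) (μ : Fin h → ℕ), (∀ i, μ i = m (k i) ∨ μ i = m (k i) + 1) →
      (∀ j, 1 ≤ m j ∧ ν ≤ (Finset.univ.filter fun i => k i = j).card ∧
        ((Finset.univ.filter fun i => k i = j).card : ℝ) * (m j + 1) ≤
          Real.exp ((ν : ℝ) ^ (1 / 250 : ℝ)) ∧
        (ν : ℝ) ^ (-(1 / 200) : ℝ) * ((∑ i, (μ i + 1) ^ 2 : ℕ) : ℝ) ≤
          ((Finset.univ.filter fun i => k i = j).card : ℝ) * ((m j : ℝ) + 1) ^ 2) →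
      ∀ d : ℕ, General (fun P => max (vd d μ) 0 ≤ (Module.finrank ℂ (curves d μ P) : ℤ) ∧
        (Module.finrank ℂ (curves d μ P) : ℝ) ≤
          max ((vd d μ : ℤ) : ℝ) 0 + 3 * (ν : ℝ) ^ (-(1 / 25) : ℝ) * d)) :=
  ⟨Pool.Agent.Lib.MP_6b2d39_agHl.homogeneous_window,
    Pool.Agent.Lib.MP_6b2d39_agHl.homogeneous_degree,
    Pool.Agent.Lib.MP_6b2d39_agHz.one_z,
    Pool.Agent.Lib.MP_6b2d39_agHz.dim_z,
    Pool.Agent.Lib.MP_6b2d39_agHz.ah_z,
    Pool.Agent.Lib.MP_6b2d39_agHz.dens_z,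
    Pool.Agent.Lib.MP_6b2d39_agHh.blocks_h,
    Pool.Agent.Lib.MP_6b2d39_agHh.dim_h⟩

end Pool.Agent.Results.MP_6b2d39_ag.HomogeneousWindow
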