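import Pool.Agent.Lib.MP_6b2d39_agVs.AllS

/-!
The Harbourne-Hirschowitz conjecture for linear systems of plane curves with general base points.

`curves d m P` is the space of homogeneous polynomials of degree `d` in three variables with
multiplicity at least `m i` at the base point `P i` (a vector of `ℂ ^ 3`), `vd d m` its virtual
dimension `(d + 2).choose 2 - ∑ (m i + 1).choose 2`, `IsSpecial` means that the dimension is larger
than `max (vd d m) 0`, and `IsMinusOneSpecial` that the system is a sum of multiples of disjoint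
(-1)-curves, one of them with multiplicity at least two, and a residual system of positive virtual
dimension which does not meet these curves.
-/

namespace Pool.Agent.Results.MP_6b2d39_ag.TenthMultiplicity

open Pool.Agent.Lib.MP_6b2d39_agCr

/-- There is a constant `C` such that for all degrees and multiplicities, special is equivalent to
(-1)-special for general base points, unless Cremona reduction leads from `(d, m)` to a reduced
special system `(e, n)`, with `n i ≤ m i` for all `i`, of the following kind. Let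
`n₁ ≥ n₂ ≥ …` be the multiplicities in decreasing order (`n (σ i)` for `i = 0, 1, …`),
`A = e ^ 2 - (n₁ ^ 2 + … + n₉ ^ 2)`, `s = 3 e - (n₁ + … + n₉)`, `t = n₁₀` and `v = vd e n`. Then
`t ≥ 1`, `s ≥ 1`, `e ≤ 3 A`, `A < 4000000 t ^ 3`; `v` is in the windows `(-15 t ^ 2, 7 t ^ 2)` and
`(-3 n₉ ^ 2, 6 n₉ ^ 2)`, and in `(-3 t ^ 2, 6 t ^ 2)` if `t ≤ s`; `e = n₁ + 2 n₉` or
`s < n₁₀ + n₁₂ + n₁₄ + …`; and for all natural numbers `1 ≤ a ≤ r` with `C r ≤ s` and
`C r + n₁ ≤ e`: either there is a `k` with `a ≤ k < t` such that `r S < k A`, where `S` is the sum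
of the `(n i) ^ 2` with `n i ≤ k`, or `A < C a ^ 2 r` and
`|v| < C ((r a ^ 2 / A) ^ 2 + a + (A / r) ^ (3 / 4)) log (A / a ^ 2 + 2) ^ 3`. -/
theorem result : ∃ C : ℝ, ∀ (h d : ℕ) (m : Fin h → ℕ), 3 ≤ h →
    General (fun P => IsSpecial d m P ↔ IsMinusOneSpecial d m P) ∨
      ∃ (e : ℕ) (n : Fin h → ℕ), Relation.ReflTransGen CremonaStep (d, m) (e, n) ∧
        (∀ i, n i ≤ m i) ∧ Reduced e n ∧ General (fun P => IsSpecial e n P) ∧
        ∀ σ : Equiv.Perm (Fin h), Antitone (fun i => n (σ i)) →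
          ∃ (i1 i9 i10 : Fin h) (A s t : ℕ), (i1 : ℕ) = 0 ∧ (i9 : ℕ) = 8 ∧ (i10 : ℕ) = 9 ∧
            e ^ 2 = ∑ i : Fin h, (if (i : ℕ) < 9 then n (σ i) ^ 2 else 0) + A ∧
            3 * e = ∑ i : Fin h, (if (i : ℕ) < 9 then n (σ i) else 0) + s ∧
            t = n (σ i10) ∧ 1 ≤ t ∧ 1 ≤ s ∧ e ≤ 3 * A ∧ A < 4000000 * t ^ 3 ∧
            -(15 * (t : ℤ) ^ 2) < vd e n ∧ vd e n < 7 * (t : ℤ) ^ 2 ∧
            (-(3 * (n (σ i9) : ℤ) ^ 2) < vd e n ∧ vd e n < 6 * (n (σ i9) : ℤ) ^ 2) ∧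
            (t ≤ s → -(3 * (t : ℤ) ^ 2) < vd e n ∧ vd e n < 6 * (t : ℤ) ^ 2) ∧
            (e = n (σ i1) + 2 * n (σ i9) ∨
              s < ∑ i : Fin h, (if 9 ≤ (i : ℕ) ∧ Odd (i : ℕ) then n (σ i) else 0)) ∧
            ∀ a r : ℕ, 1 ≤ a → a ≤ r → C * r ≤ s → C * r + n (σ i1) ≤ e →
              (∃ k : ℕ, a ≤ k ∧ k < t ∧
                r * ∑ i ∈ Finset.univ.filter (fun i => n i ≤ k), n i ^ 2 < k * A) ∨
              ((A : ℝ) < C * (a : ℝ) ^ 2 * r ∧ |((vd e n : ℤ) : ℝ)| <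
                C * (((r : ℝ) * a ^ 2 / A) ^ 2 + a + ((A : ℝ) / r) ^ (3 / 4 : ℝ)) *
                  Real.log ((A : ℝ) / a ^ 2 + 2) ^ 3) :=
  Pool.Agent.Lib.MP_6b2d39_agVs.all_s

end Pool.Agent.Results.MP_6b2d39_ag.TenthMultiplicity
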